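import Pool.Agent.Run7.h579.OG.X2

/-!
# Project OG (helper723), piece N10A (helper996)

The lemmas on neighbourhoods and the case of two disjoint neighbourhoods are from the piece X2
(helper579).
-/

set_option autoImplicit false

namespace Pool.Agent.Run7.h996.OG

open Pool.H723.OG
open Pool.Agent.Run7.h579.OG (nbh mem_nbh card_nbh lev3 lev2 disj_lev)

section
variable {V : Type} [Fintype V] [DecidableEq V]

theorem nb_filter (G : SimpleGraph V) (D : Finset V) (v : V) :
    nb G D v = (D ∩ nbh G v).card := by
  classical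
  unfold nb
  congr 1
  ext u
  simp only [Finset.mem_filter, Finset.mem_inter, mem_nbh]
  constructor
  · rintro ⟨h1, h2⟩
    exact ⟨h1, h2.symm⟩
  · rintro ⟨h1, h2⟩
    exact ⟨h1, h2.symm⟩

theorem nb_of_subset (G : SimpleGraph V) (D : Finset V) (v : V) (h : nbh G v ⊆ D) :
    nb G D v = dg G v := by
  rw [nb_filter, Finset.inter_eq_right.2 h, card_nbh]

theorem nb_pos (G : SimpleGraph V) (D : Finset V) (v u : V) (hu : u ∈ D) (h : G.Adj v u) :
    1 ≤ nb G D v := by
  rw [nb_filter, Nat.one_le_iff_ne_zero, Finset.card_ne_zero]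
  exact ⟨u, Finset.mem_inter.2 ⟨hu, (mem_nbh G v u).2 h⟩⟩

omit [DecidableEq V] in
theorem mem_lev (G : SimpleGraph V) (D : Finset V) (j : ℕ) (v : V) :
    v ∈ lev G D j ↔ v ∉ D ∧ nb G D v = j := by
  classical
  unfold lev
  simp

/-- two disjoint neighbourhoods -/
theorem disjoint_case (hCOST : S_COST) (G : SimpleGraph V) (hCC : CC G) (x y : V) (hxy : x ≠ y)
    (hx1 : 1 ≤ dg G x) (hy1 : 1 ≤ dg G y) (hx2 : dg G x ≤ 2) (hy2 : dg G y ≤ 2)
    (hone : ¬ (dg G x = 1 ∧ dg G y = 1)) (hint : nbh G x ∩ nbh G y = ∅) : Le G 4 := by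
  classical
  have cx := card_nbh G x
  have cy := card_nbh G y
  set D : Finset V := nbh G x ∪ nbh G y with hD
  have hDc : D.card ≤ (nbh G x).card + (nbh G y).card := Finset.card_union_le _ _
  apply hCOST V G D 4
  have hz : ∀ z, x ≠ z → y ≠ z → 2 ≤ nb G D z := by
    intro z hxz hyz
    have h1 := hCC x y z hxy hxz hyz
    have hl3 : lev G {x, y, z} 3 = ∅ := by
      rw [Finset.eq_empty_iff_forall_notMem]
      intro v hv
      obtain ⟨h1, h2, -⟩ := lev3 G x y z hxy hxz hyz v hv
      have : v ∈ nbh G x ∩ nbh G y :=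
        Finset.mem_inter.2 ⟨(mem_nbh G x v).2 h1, (mem_nbh G y v).2 h2⟩
      rw [hint] at this
      simp at this
    have hl2 : lev G {x, y, z} 2 ⊆ D ∩ nbh G z := by
      intro v hv
      obtain ⟨h1, h2⟩ := lev2 G x y z hxy hxz hyz v hv
      refine Finset.mem_inter.2 ⟨?_, ?_⟩
      · rw [hD, Finset.mem_union, mem_nbh, mem_nbh]
        exact h1
      · rcases h2 with h2 | h2
        · exfalso
          have : v ∈ nbh G x ∩ nbh G y :=
            Finset.mem_inter.2 ⟨(mem_nbh G x v).2 h2.1, (mem_nbh G y v).2 h2.2⟩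
          rw [hint] at this
          simp at this
        · exact (mem_nbh G z v).2 h2
    rw [hl3, Finset.card_empty] at h1
    have h2 := Finset.card_le_card hl2
    rw [nb_filter]
    omega
  have hxD : nb G D x = dg G x := nb_of_subset G D x Finset.subset_union_left
  have hyD : nb G D y = dg G y := nb_of_subset G D y Finset.subset_union_right
  have h0 : lev G D 0 = ∅ := by
    rw [Finset.eq_empty_iff_forall_notMem]
    intro v hv
    rw [mem_lev] at hv
    by_cases h1 : x = v
    · subst h1; omega
    by_cases h2 : y = v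
    · subst h2; omega
    have := hz v h1 h2
    omega
  have h1 : (lev G D 1).card ≤ 1 := by
    rw [Finset.card_le_one]
    have key : ∀ v ∈ lev G D 1, (v = x ∧ dg G x = 1) ∨ (v = y ∧ dg G y = 1) := by
      intro v hv
      rw [mem_lev] at hv
      by_cases h1 : x = v
      · subst h1; left; exact ⟨rfl, by omega⟩
      by_cases h2 : y = v
      · subst h2; right; exact ⟨rfl, by omega⟩
      have := hz v h1 h2
      omega
    intro u hu v hv
    rcases key u hu with ⟨a1, a2⟩ | ⟨a1, a2⟩ <;> rcases key v hv with ⟨b1, b2⟩ | ⟨b1, b2⟩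
    · rw [a1, b1]
    · exact absurd ⟨a2, b2⟩ hone
    · exact absurd ⟨b2, a2⟩ hone
    · rw [a1, b1]
  unfold cost2
  rw [h0, Finset.card_empty]
  omega

/-- a vertex of degree 1 and one of degree at most 2 with a common neighbour contradict (C) -/
theorem degree_one (G : SimpleGraph V) (hCC : CC G) (x y : V) (hxy : x ≠ y)
    (hx1 : dg G x = 1) (hy2 : dg G y ≤ 2) (hint : nbh G x ∩ nbh G y ≠ ∅) : False := by
  classical
  obtain ⟨a, ha⟩ := Finset.nonempty_iff_ne_empty.2 hint
  have ha' := Finset.mem_inter.1 ha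
  have hxa : G.Adj x a := (mem_nbh G x a).1 ha'.1
  have hya : G.Adj y a := (mem_nbh G y a).1 ha'.2
  have cx := card_nbh G x
  have cy := card_nbh G y
  have hNx : nbh G x = {a} := by
    rw [hx1, Finset.card_eq_one] at cx
    obtain ⟨a', ha2⟩ := cx
    rw [ha2] at ha' ⊢
    rw [Finset.mem_singleton.1 ha'.1]
  have h1 := hCC x y a hxy hxa.ne hya.ne
  have e3 : lev G {x, y, a} 3 = ∅ := by
    rw [Finset.eq_empty_iff_forall_notMem]
    intro v hv
    obtain ⟨h2, -, h3⟩ := lev3 G x y a hxy hxa.ne hya.ne v hv
    have h4 := (mem_nbh G x v).2 h2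
    rw [hNx, Finset.mem_singleton] at h4
    exact h3.ne h4.symm
  have e2 : lev G {x, y, a} 2 ⊆ (nbh G y).erase a := by
    intro v hv
    obtain ⟨h2, -⟩ := lev2 G x y a hxy hxa.ne hya.ne v hv
    have hva : v ≠ a := by
      rw [mem_lev] at hv
      rintro rfl
      apply hv.1
      simp
    rw [Finset.mem_erase]
    refine ⟨hva, ?_⟩
    rcases h2 with h2 | h2
    · have h4 := (mem_nbh G x v).2 h2
      rw [hNx, Finset.mem_singleton] at h4
      exact absurd h4 hva
    · exact (mem_nbh G y v).2 h2
  have c2 := Finset.card_le_card e2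
  rw [Finset.card_erase_of_mem ha'.2] at c2
  rw [e3, Finset.card_empty] at h1
  omega

omit [Fintype V] [DecidableEq V] in
/-- closed sets of a connected graph -/
theorem closed_univ (G : SimpleGraph V) (hG : G.Connected) (S : Finset V) (a : V) (ha : a ∈ S)
    (hS : ∀ u ∈ S, ∀ v, G.Adj u v → v ∈ S) (v : V) : v ∈ S := by
  obtain ⟨w⟩ := hG.preconnected a v
  have key : ∀ (u v : V) (_ : G.Walk u v), u ∈ S → v ∈ S := by
    intro u v w
    induction w with
    | nil => exact fun h => h
    | cons h p ih => exact fun hu => ih (hS _ hu _ h)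
  exact key a v w ha

end

theorem t_N10A (hCOST : S_COST) (hMONO : S_MONO) (hLOWA : S_LOWA) (hLOWB : S_LOWB) :
    S_N10A := by
  classical
  intro V _ _ G hn hG hGc hCC hlow
  have hnt : Nontrivial V := Fintype.one_lt_card_iff_nontrivial.1 (by omega)
  have hdeg : ∀ v, 1 ≤ dg G v := by
    intro v
    obtain ⟨u, hu⟩ := hG.preconnected.exists_adj_of_nontrivial v
    rw [← card_nbh, Nat.one_le_iff_ne_zero, Finset.card_ne_zero]
    exact ⟨u, (mem_nbh G v u).2 hu⟩
  by_contra hcon
  set X : Finset V := low G 2 with hX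
  have hX2 : ∀ x ∈ X, dg G x ≤ 2 := by
    intro x hx
    simpa [hX, low] using hx
  have hna : ∀ x ∈ X, ∀ y ∈ X, ¬ G.Adj x y := by
    intro x hx y hy hadj
    exact hcon (hMONO V G 3 5 (by norm_num)
      (hLOWA V G (by omega) hG hGc hCC x y hadj (hX2 x hx) (hX2 y hy)))
  have hone : ∀ x ∈ X, ∀ y ∈ X, x ≠ y → ¬ (dg G x = 1 ∧ dg G y = 1) := by
    intro x hx y hy hxy h
    exact hcon (hMONO V G 3 5 (by norm_num)
      (hLOWB V G (by omega) hG hGc hCC x y hxy h.1 h.2))
  have hint : ∀ x ∈ X, ∀ y ∈ X, x ≠ y → nbh G x ∩ nbh G y ≠ ∅ := by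
    intro x hx y hy hxy h
    exact hcon (hMONO V G 4 5 (by norm_num)
      (disjoint_case hCOST G hCC x y hxy (hdeg x) (hdeg y) (hX2 x hx) (hX2 y hy)
        (hone x hx y hy hxy) h))
  have hd2 : ∀ x ∈ X, dg G x = 2 := by
    intro x hx
    by_contra h
    have h1 : dg G x = 1 := by
      have := hdeg x
      have := hX2 x hx
      omega
    obtain ⟨y, hy, hxy⟩ : ∃ y ∈ X, x ≠ y := by
      obtain ⟨y, hy, hne⟩ := Finset.exists_mem_ne (by omega : 1 < X.card) x
      exact ⟨y, hy, hne.symm⟩
    exact degree_one G hCC x y hxy h1 (hX2 y hy) (hint x hx y hy hxy)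
  have hXc : X.card = 4 := hlow
  by_cases hall : ∃ x ∈ X, ∃ y ∈ X, nbh G x ≠ nbh G y
  · obtain ⟨x, hx, y, hy, hne⟩ := hall
    have hxy : x ≠ y := fun h => hne (by rw [h])
    set D : Finset V := X.biUnion (nbh G) with hD
    have hsub : ∀ z ∈ X, nbh G z ⊆ D := fun z hz => Finset.subset_biUnion_of_mem (nbh G) hz
    have hDX : Disjoint D X := by
      rw [Finset.disjoint_left]
      intro v hv hvX
      obtain ⟨z, hz, hzv⟩ := Finset.mem_biUnion.1 hv
      exact hna z hz v hvX ((mem_nbh G z v).1 hzv)
    have hDc : D.card ≤ 5 := by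
      have e1 : D ⊆ nbh G x ∪ (X.erase x).biUnion (fun z => nbh G z \ nbh G x) := by
        intro v hv
        obtain ⟨z, hz, hzv⟩ := Finset.mem_biUnion.1 hv
        by_cases h : v ∈ nbh G x
        · exact Finset.mem_union_left _ h
        · refine Finset.mem_union_right _ (Finset.mem_biUnion.2 ⟨z, ?_, Finset.mem_sdiff.2 ⟨hzv, h⟩⟩)
          rw [Finset.mem_erase]
          refine ⟨?_, hz⟩
          rintro rfl
          exact h hzv
      have e2 : ∀ z ∈ X.erase x, (nbh G z \ nbh G x).card ≤ 1 := by
        intro z hz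
        rw [Finset.mem_erase] at hz
        have h1 := hint z hz.2 x hx hz.1
        have h2 : 0 < (nbh G z ∩ nbh G x).card :=
          Finset.card_pos.2 (Finset.nonempty_iff_ne_empty.2 h1)
        have h3 := Finset.card_sdiff_add_card_inter (nbh G z) (nbh G x)
        have h4 := card_nbh G z
        have h5 := hd2 z hz.2
        omega
      have e3 : ((X.erase x).biUnion (fun z => nbh G z \ nbh G x)).card ≤ 3 * 1 := by
        have h1 := Finset.card_biUnion_le_card_mul (X.erase x) (fun z => nbh G z \ nbh G x) 1 e2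
        rw [Finset.card_erase_of_mem hx, hXc] at h1
        simpa using h1
      have h1 := Finset.card_le_card e1
      have h2 := Finset.card_union_le (nbh G x) ((X.erase x).biUnion (fun z => nbh G z \ nbh G x))
      have h3 := card_nbh G x
      have h4 := hd2 x hx
      omega
    have hz : ∀ z, x ≠ z → y ≠ z → 1 ≤ nb G D z := by
      intro z hxz hyz
      by_contra h
      have hno : ∀ v, v ∈ D → ¬ G.Adj z v := by
        intro v hv hadj
        exact h (nb_pos G D z v hv hadj)
      have h1 := hCC x y z hxy hxz hyz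
      have e3 : lev G {x, y, z} 3 = ∅ := by
        rw [Finset.eq_empty_iff_forall_notMem]
        intro v hv
        obtain ⟨h2, -, h3⟩ := lev3 G x y z hxy hxz hyz v hv
        exact hno v (hsub x hx ((mem_nbh G x v).2 h2)) h3
      have e2 : lev G {x, y, z} 2 ⊆ nbh G x ∩ nbh G y := by
        intro v hv
        obtain ⟨h2, h3⟩ := lev2 G x y z hxy hxz hyz v hv
        have hvD : v ∈ D := by
          rcases h2 with h2 | h2
          · exact hsub x hx ((mem_nbh G x v).2 h2)
          · exact hsub y hy ((mem_nbh G y v).2 h2)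
        rcases h3 with h3 | h3
        · exact Finset.mem_inter.2 ⟨(mem_nbh G x v).2 h3.1, (mem_nbh G y v).2 h3.2⟩
        · exact absurd h3 (hno v hvD)
      have c2 := Finset.card_le_card e2
      have c3 : (nbh G x ∩ nbh G y).card ≤ 1 := by
        by_contra h4
        have h5 := card_nbh G x
        have h6 := card_nbh G y
        have h7 := hd2 x hx
        have h8 := hd2 y hy
        have h9 : nbh G x ∩ nbh G y = nbh G x :=
          Finset.eq_of_subset_of_card_le Finset.inter_subset_left (by omega)
        have h10 : nbh G x ∩ nbh G y = nbh G y :=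
          Finset.eq_of_subset_of_card_le Finset.inter_subset_right (by omega)
        exact hne (h9.symm.trans h10)
      rw [e3, Finset.card_empty] at h1
      omega
    have hnbX : ∀ z ∈ X, nb G D z = 2 := fun z hz => by
      rw [nb_of_subset G D z (hsub z hz), hd2 z hz]
    have h0 : lev G D 0 = ∅ := by
      rw [Finset.eq_empty_iff_forall_notMem]
      intro v hv
      rw [mem_lev] at hv
      by_cases h1 : x = v
      · subst h1
        have := hnbX x hx
        omega
      by_cases h2 : y = v
      · subst h2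
        have := hnbX y hy
        omega
      have := hz v h1 h2
      omega
    have h1 : lev G D 1 ⊆ (D ∪ X)ᶜ := by
      intro v hv
      rw [mem_lev] at hv
      rw [Finset.mem_compl, Finset.mem_union]
      rintro (h | h)
      · exact hv.1 h
      · have := hnbX v h
        omega
    have c1 := Finset.card_le_card h1
    rw [Finset.card_compl, Finset.card_union_of_disjoint hDX, hn, hXc] at c1
    have c2 : (D ∪ X).card ≤ 10 := by
      rw [← hn]
      exact Finset.card_le_univ _
    rw [Finset.card_union_of_disjoint hDX, hXc] at c2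
    apply hcon
    apply hCOST V G D 5
    unfold cost2
    rw [h0, Finset.card_empty]
    omega
  · push Not at hall
    obtain ⟨x, hx⟩ : X.Nonempty := by
      rw [← Finset.card_pos, hXc]
      norm_num
    set D : Finset V := nbh G x with hD
    have hXD : ∀ z ∈ X, nbh G z = D := fun z hz => hall z hz x hx
    have hDc : D.card = 2 := by
      rw [hD, card_nbh, hd2 x hx]
    have hDX : Disjoint D X := by
      rw [Finset.disjoint_left]
      intro v hv hvX
      exact hna x hx v hvX ((mem_nbh G x v).1 hv)
    have hnbX : ∀ z ∈ X, nb G D z = 2 := fun z hz => by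
      rw [nb_of_subset G D z (by rw [hXD z hz]), hd2 z hz]
    have s01 : lev G D 0 ∪ lev G D 1 ⊆ (D ∪ X)ᶜ := by
      intro v hv
      rw [Finset.mem_union, mem_lev, mem_lev] at hv
      rw [Finset.mem_compl, Finset.mem_union]
      rintro (h | h)
      · rcases hv with hv | hv <;> exact hv.1 h
      · have := hnbX v h
        rcases hv with hv | hv <;> omega
    have cc : ((D ∪ X)ᶜ : Finset V).card = 4 := by
      rw [Finset.card_compl, Finset.card_union_of_disjoint hDX, hn, hXc, hDc]
    have c01 := Finset.card_le_card s01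
    rw [Finset.card_union_of_disjoint (disj_lev G D 0 1 (by norm_num)), cc] at c01
    have h3 : (lev G D 0).card ≤ 3 := by
      by_contra h4
      have h5 : lev G D 0 = (D ∪ X)ᶜ := by
        apply Finset.eq_of_subset_of_card_le
        · exact Finset.union_subset_left s01
        · rw [cc]
          omega
      have hcl : ∀ u ∈ D ∪ X, ∀ v, G.Adj u v → v ∈ D ∪ X := by
        intro u hu v huv
        by_contra hv
        have hv0 : v ∈ lev G D 0 := by
          rw [h5, Finset.mem_compl]
          exact hv
        rw [mem_lev] at hv0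
        rcases Finset.mem_union.1 hu with hu | hu
        · have := nb_pos G D v u hu huv.symm
          omega
        · apply hv
          rw [← hXD u hu]
          exact Finset.mem_union_left _ ((mem_nbh G u v).2 huv)
      obtain ⟨v, hv⟩ : ((D ∪ X)ᶜ : Finset V).Nonempty := by
        rw [← Finset.card_pos, cc]
        norm_num
      rw [Finset.mem_compl] at hv
      exact hv (closed_univ G hG (D ∪ X) x (Finset.mem_union_right _ hx) hcl v)
    apply hcon
    apply hCOST V G D 5
    unfold cost2
    omega

end Pool.Agent.Run7.h996.OG
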